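import Mathlib
import Pool.Agent.R31.OnePlaneFix
import Pool.Agent.R31.OnePlaneBound

/-!
# Blow-ups by two independent vertices which are 1-planar (MP_5ea113_co)

If `n ≥ 5` and `G` is a graph on `n` vertices whose blow-up `G ∘ 2K₁` is 1-planar then `G` has at
most `2n - 4` edges and at most `7(n - 1)/4` edges.
-/

set_option autoImplicit false

namespace Pool.Agent.Results.MP_5ea113_co.NeverTight

open Equiv.Perm

/-! ### Definitions -/

/-- The lexicographic product `G ∘ 2K₁`: every vertex is replaced by two non-adjacent copies. -/
def blowup {V : Type} (G : SimpleGraph V) : SimpleGraph (V × Fin 2) where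
  Adj p q := G.Adj p.1 q.1
  symm := ⟨fun _ _ h => SimpleGraph.Adj.symm h⟩
  loopless := ⟨fun _ h => h.ne rfl⟩

/-- The planarisation of a drawing of the graph `H` in the plane in which every edge is crossed at
most once. The crossings become additional vertices, called crossing points, and the drawing
becomes a plane map, given by its darts (the edge segments with a direction; a dart belongs to the
point which it leaves). -/
structure OnePlaneDrawing {W : Type} (H : SimpleGraph W) where
  /-- The darts. -/
  D : Type
  finite : Finite D
  /-- The next dart in the cyclic order around the same point. -/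
  σ : Equiv.Perm D
  /-- The same segment with the other direction. -/
  α : Equiv.Perm D
  α_α : ∀ d, α (α d) = d
  α_ne : ∀ d, α d ≠ d
  /-- The drawing lies in the plane: points (cycles of `σ`) plus faces (cycles of `σ ∘ α`) equals
  segments (cycles of `α`) plus twice the number of connected components. -/
  euler : Nat.card (Quotient (SameCycle.setoid σ)) + Nat.card (Quotient (SameCycle.setoid (σ * α)))
    = Nat.card (Quotient (SameCycle.setoid α)) +
      2 * Nat.card (Quotient (Relation.EqvGen.setoid (fun d e => e = σ d ∨ e = α d)))
  /-- The vertex of `H` which the dart leaves, or `none` if the dart leaves a crossing point. -/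
  vert : D → Option W
  vert_σ : ∀ d, vert (σ d) = vert d
  /-- Every vertex of `H` is one point. -/
  vert_cycle : ∀ d e, vert d ≠ none → vert e = vert d → σ.SameCycle d e
  /-- Four darts leave a crossing point. -/
  crossing : ∀ d, vert d = none → σ (σ (σ (σ d))) = d ∧ σ (σ d) ≠ d
  /-- No edge has two crossings: the segments at a crossing point end at vertices of `H`. -/
  once : ∀ d, vert d = none → vert (α d) ≠ none
  /-- The last segment, directed backwards, of the edge of `H` whose first segment is `d`: this is
  `α d` if `d` ends at a vertex of `H`; otherwise the edge runs straight on through the crossing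
  point. -/
  last : D → D
  last_vertex : ∀ d, vert (α d) ≠ none → last d = α d
  last_crossing : ∀ d, vert (α d) = none → last d = α (σ (σ (α d)))
  /-- The edges drawn are those of `H`. -/
  adj_iff : ∀ u w, H.Adj u w ↔ ∃ d, vert d = some u ∧ vert (last d) = some w
  /-- Every edge is drawn once. -/
  simple : ∀ d e, vert d ≠ none → vert e = vert d → vert (last e) = vert (last d) → e = d

/-- `H` is 1-planar: it has a drawing in which every edge is crossed at most once. -/
def OnePlanar {W : Type} (H : SimpleGraph W) : Prop := Nonempty (OnePlaneDrawing H)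

/-! ### The internal form of a drawing -/

theorem card_le {D : Type} [Fintype D] (α : Equiv.Perm D) (hα : ∀ d, α (α d) = d) :
    Fintype.card D ≤ 2 * Nat.card (Quotient (SameCycle.setoid α)) := by
  classical
  have : Fintype (Quotient (SameCycle.setoid α)) := Fintype.ofFinite _
  rw [Nat.card_eq_fintype_card, ← Finset.card_univ, ← Finset.card_univ]
  refine Finset.card_le_mul_card_image_of_maps_to
    (f := fun d => (Quotient.mk (SameCycle.setoid α) d)) (fun _ _ => Finset.mem_univ _) 2 ?_
  intro b _
  obtain ⟨d₀, rfl⟩ := Quotient.exists_rep b
  have hsub : (Finset.univ.filter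
      (fun d => (Quotient.mk (SameCycle.setoid α) d) = Quotient.mk (SameCycle.setoid α) d₀)) ⊆
        {d₀, α d₀} := by
    intro d hd
    rw [Finset.mem_filter] at hd
    have h : α.SameCycle d₀ d := Quotient.exact hd.2.symm
    obtain ⟨i, hi⟩ := h.exists_nat_pow_eq
    rw [Finset.mem_insert, Finset.mem_singleton]
    have key : ∀ i : ℕ, (α ^ i) d₀ = d₀ ∨ (α ^ i) d₀ = α d₀ := by
      intro i
      induction i with
      | zero => exact Or.inl rfl
      | succ i ih =>
        rw [pow_succ', Equiv.Perm.mul_apply]
        rcases ih with ih | ih
        · rw [ih]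
          exact Or.inr rfl
        · rw [ih, hα]
          exact Or.inl rfl
    rw [← hi]
    exact key i
  exact (Finset.card_le_card hsub).trans Finset.card_le_two

open Pool.Agent.R31.OnePlane in
theorem toPDraw {W : Type} {H : SimpleGraph W} (X : OnePlaneDrawing H) :
    Nonempty (PDraw H) := by
  classical
  have := X.finite
  let _ : Fintype X.D := Fintype.ofFinite _
  have hlast : ∀ d, X.last d = opp X.σ X.α X.vert d := by
    intro d
    unfold opp
    by_cases h : X.vert (X.α d) = none
    · rw [X.last_crossing d h, if_neg]
      rw [h]
      simp
    · rw [X.last_vertex d h, if_pos (Option.isSome_iff_ne_none.mpr h)]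
  have hcard := card_le X.α X.α_α
  have heuler := X.euler
  let f1 : Fintype (Quotient (SameCycle.setoid X.σ)) := Fintype.ofFinite _
  let f2 : Fintype (Quotient (SameCycle.setoid (X.σ * X.α))) := Fintype.ofFinite _
  let f3 : Fintype (Quotient
    (Relation.EqvGen.setoid (fun d e => e = X.σ d ∨ e = X.α d))) := Fintype.ofFinite _
  rw [Nat.card_eq_fintype_card (α := Quotient (SameCycle.setoid X.σ)),
    Nat.card_eq_fintype_card (α := Quotient (SameCycle.setoid (X.σ * X.α))),
    Nat.card_eq_fintype_card (α := Quotient
      (Relation.EqvGen.setoid (fun d e => e = X.σ d ∨ e = X.α d)))] at heuler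
  exact ⟨{
    D := X.D
    V := Quotient (SameCycle.setoid X.σ)
    F := Quotient (SameCycle.setoid (X.σ * X.α))
    C := Quotient (Relation.EqvGen.setoid (fun d e => e = X.σ d ∨ e = X.α d))
    finD := inferInstance
    finV := f1
    finF := f2
    finC := f3
    σ := X.σ
    α := X.α
    v := fun d => Quotient.mk _ d
    f := fun d => Quotient.mk _ d
    comp := fun d => Quotient.mk _ d
    αα := X.α_α
    α_ne := X.α_ne
    vσ := fun d => Quotient.sound (sameCycle_apply_left.mpr (SameCycle.refl _ _))
    fσ := fun d => Quotient.sound
      (show (X.σ * X.α).SameCycle ((X.σ * X.α) d) d from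
        sameCycle_apply_left.mpr (SameCycle.refl _ _))
    v_surj := Quotient.exists_rep
    f_surj := Quotient.exists_rep
    c_surj := Quotient.exists_rep
    cα := fun d => Quotient.sound (Relation.EqvGen.symm _ _
      (Relation.EqvGen.rel _ _ (Or.inr rfl)))
    cσ := fun d => Quotient.sound (Relation.EqvGen.symm _ _
      (Relation.EqvGen.rel _ _ (Or.inl rfl)))
    conn := by
      intro P hα hσ d e hde hd
      have hback : ∀ d, P (X.σ d) → P d := by
        intro d h
        have hs : X.σ.SameCycle (X.σ d) d := sameCycle_apply_left.mpr (SameCycle.refl _ _)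
        obtain ⟨i, hi⟩ := hs.exists_nat_pow_eq
        rw [← hi]
        clear hi
        induction i with
        | zero => exact h
        | succ i ih =>
          rw [pow_succ', Equiv.Perm.mul_apply]
          exact hσ _ ih
      have hgen : Relation.EqvGen (fun d e => e = X.σ d ∨ e = X.α d) d e := Quotient.exact hde
      have key : P d ↔ P e := by
        clear hd hde
        induction hgen with
        | rel x y h =>
          rcases h with rfl | rfl
          · exact ⟨hσ x, hback x⟩
          · refine ⟨hα x, fun h => ?_⟩
            have := hα _ h
            rwa [X.α_α] at this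
        | refl x => exact Iff.rfl
        | symm x y _ ih => exact ih.symm
        | trans x y z _ _ ih1 ih2 => exact ih1.trans ih2
      exact key.mp hd
    euler := by omega
    vert := X.vert
    vert_σ := X.vert_σ
    cyc := X.vert_cycle
    mid4 := fun d hd => (X.crossing d hd).1
    mid2 := fun d hd => (X.crossing d hd).2
    midα := X.once
    adj_iff := by
      intro u w
      rw [X.adj_iff]
      simp only [hlast]
    unique := by
      intro d e hd he hde
      rw [← hlast, ← hlast] at hde
      exact X.simple d e hd he hde }⟩

/-- A graph on `n ≥ 5` vertices whose blow-up by two independent vertices is 1-planar has at most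
`2n - 4` edges, and at most `7(n - 1)/4` edges. In particular the bound `2n - 3` is attained for no
`n ≥ 5`. -/
theorem result (n : ℕ) (hn : 5 ≤ n) (G : SimpleGraph (Fin n)) (h : OnePlanar (blowup G)) :
    G.edgeSet.ncard ≤ 2 * n - 4 ∧ 4 * G.edgeSet.ncard ≤ 7 * (n - 1) := by
  classical
  obtain ⟨X⟩ := h
  obtain ⟨P⟩ := toPDraw X
  obtain ⟨M⟩ := Pool.Agent.R31.OnePlane.PDraw.exists_draw _ P rfl
  have hb := Pool.Agent.R31.OnePlane.bound (G := G) M (fun _ _ => Iff.rfl)
    (by rw [Fintype.card_fin]; exact hn)
  rw [Fintype.card_fin] at hb
  have h2 : ∀ [Fintype G.edgeSet], G.edgeFinset.card = G.edgeSet.ncard := by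
    intro _
    rw [← SimpleGraph.coe_edgeFinset, Set.ncard_coe_finset]
  rw [h2] at hb
  omega

end Pool.Agent.Results.MP_5ea113_co.NeverTight
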